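import Mathlib
import Pool.Agent.H906R3.YM.Gauge

/-!
# Cuts of the periodic lattice by balls and central gauge transformations
-/

namespace Pool.Agent.W653.CF

open Pool.Agent.H906R3.YM

noncomputable section

variable {D l : ℕ}

/-- the `l¹` distance on the periodic lattice -/
def rho1 (x s : Fin D → ZMod l) : ℕ := ∑ i, (s i - x i).valMinAbs.natAbs

lemma rho1_self (x : Fin D → ZMod l) : rho1 x x = 0 := by
  unfold rho1
  simp

lemma natAbs_one_le : ((1 : ZMod l).valMinAbs).natAbs ≤ 1 := by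
  rcases Nat.eq_zero_or_pos l with h | h
  · subst h
    show Int.natAbs ((1 : ZMod 0).valMinAbs) ≤ 1
    have : ((1 : ZMod 0).valMinAbs) = (1 : ℤ) := ZMod.valMinAbs_def_zero _
    rw [this]; exact le_of_eq rfl
  · have : NeZero l := ⟨h.ne'⟩
    have h1 := ZMod.valMinAbs_natAbs_eq_min (1 : ZMod l)
    rw [h1]
    rcases Nat.lt_or_ge 1 l with h2 | h2
    · have : Fact (1 < l) := ⟨h2⟩
      rw [ZMod.val_one]; exact min_le_left _ _
    · have : l = 1 := by omega
      subst this
      refine (min_le_left _ _).trans ?_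
      have : (1 : ZMod 1).val < 1 := ZMod.val_lt _
      omega

lemma natAbs_step (a : ZMod l) :
    (a + 1).valMinAbs.natAbs ≤ a.valMinAbs.natAbs + 1 ∧
      a.valMinAbs.natAbs ≤ (a + 1).valMinAbs.natAbs + 1 := by
  constructor
  · refine (ZMod.natAbs_valMinAbs_add_le a 1).trans ?_
    refine (Int.natAbs_add_le _ _).trans ?_
    have := natAbs_one_le (l := l)
    omega
  · have h1 := ZMod.natAbs_valMinAbs_add_le (a + 1) (-1)
    rw [add_neg_cancel_right] at h1
    refine h1.trans ?_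
    refine (Int.natAbs_add_le _ _).trans ?_
    have := natAbs_one_le (l := l)
    rw [ZMod.natAbs_valMinAbs_neg]
    omega

lemma rho1_eT (x s : Fin D → ZMod l) (i : Fin D) :
    rho1 x (s + eT i) = rho1 x s - (s i - x i).valMinAbs.natAbs +
      (s i - x i + 1).valMinAbs.natAbs ∧ (s i - x i).valMinAbs.natAbs ≤ rho1 x s := by
  have h1 : rho1 x s = (s i - x i).valMinAbs.natAbs +
      ∑ k ∈ Finset.univ.erase i, (s k - x k).valMinAbs.natAbs := by
    unfold rho1
    exact (Finset.add_sum_erase _ (fun k => (s k - x k).valMinAbs.natAbs)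
      (Finset.mem_univ i)).symm
  have h2 : rho1 x (s + eT i) = (s i - x i + 1).valMinAbs.natAbs +
      ∑ k ∈ Finset.univ.erase i, (s k - x k).valMinAbs.natAbs := by
    unfold rho1
    refine (Finset.add_sum_erase _ (fun k => ((s + eT i : Fin D → ZMod l) k - x k).valMinAbs.natAbs)
      (Finset.mem_univ i)).symm.trans ?_
    congr 1
    · show ((s + eT i : Fin D → ZMod l) i - x i).valMinAbs.natAbs = _
      congr 2
      simp only [Pi.add_apply, eT, Pi.single_eq_same]; ring
    · refine Finset.sum_congr rfl fun k hk => ?_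
      have hk' : k ≠ i := (Finset.mem_erase.1 hk).1
      simp only [Pi.add_apply, eT, Pi.single_eq_of_ne hk', add_zero]
  constructor
  · rw [h1, h2]; omega
  · rw [h1]; omega

lemma rho1_step (x s : Fin D → ZMod l) (i : Fin D) :
    rho1 x (s + eT i) ≤ rho1 x s + 1 ∧ rho1 x s ≤ rho1 x (s + eT i) + 1 := by
  obtain ⟨h1, h2⟩ := rho1_eT x s i
  obtain ⟨h3, h4⟩ := natAbs_step (s i - x i)
  constructor <;> omega

/-- the links which leave the ball of radius `r` -/
def Cut (x : Fin D → ZMod l) (r : ℕ) (e : Ed D l) : Prop :=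
  ¬(rho1 x e.1 ≤ r ↔ rho1 x (e.1 + eT e.2) ≤ r)

lemma Cut.val {x : Fin D → ZMod l} {r : ℕ} {e : Ed D l} (h : Cut x r e) :
    min (rho1 x e.1) (rho1 x (e.1 + eT e.2)) = r := by
  obtain ⟨h1, h2⟩ := rho1_step x e.1 e.2
  unfold Cut at h
  by_cases h3 : rho1 x e.1 ≤ r <;> by_cases h4 : rho1 x (e.1 + eT e.2) ≤ r
  · exact absurd ⟨fun _ => h4, fun _ => h3⟩ h
  · omega
  · omega
  · exact absurd ⟨fun h5 => absurd h5 h3, fun h5 => absurd h5 h4⟩ h

lemma Cut.disj {x : Fin D → ZMod l} {r r' : ℕ} {e : Ed D l} (h : Cut x r e) (h' : Cut x r' e) :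
    r = r' := h.val.symm.trans h'.val

/-- the exponent of the centre element on a link -/
def sgn (x : Fin D → ZMod l) (r : ℕ) (e : Ed D l) : ℤ :=
  (if rho1 x e.1 ≤ r then 1 else 0) - (if rho1 x (e.1 + eT e.2) ≤ r then 1 else 0)

lemma sgn_cases (x : Fin D → ZMod l) (r : ℕ) (e : Ed D l) :
    sgn x r e = 0 ∨ sgn x r e = 1 ∨ sgn x r e = -1 := by
  unfold sgn
  split_ifs <;> simp

lemma sgn_eq_zero {x : Fin D → ZMod l} {r : ℕ} {e : Ed D l} (h : ¬Cut x r e) :
    sgn x r e = 0 := by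
  unfold Cut at h
  unfold sgn
  by_cases h3 : rho1 x e.1 ≤ r <;> by_cases h4 : rho1 x (e.1 + eT e.2) ≤ r
  · simp [h3, h4]
  · exact absurd (fun h5 => h4 (h5.1 h3)) h
  · exact absurd (fun h5 => h3 (h5.2 h4)) h
  · simp [h3, h4]

variable {G : Type*} [Group G]

/-- the central configuration of the cut -/
def zc (z : G) (x : Fin D → ZMod l) (r : ℕ) : Ed D l → G := fun e => z ^ sgn x r e

/-- the gauge transformation which is `z` on the ball -/
def zb (z : G) (x : Fin D → ZMod l) (r : ℕ) : (Fin D → ZMod l) → G :=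
  fun s => if rho1 x s ≤ r then z else 1

lemma gt_zb {z : G} (hz : ∀ g, z * g = g * z) (x : Fin D → ZMod l) (r : ℕ) (U : Ed D l → G) :
    gt (zb z x r) U = zc z x r * U := by
  funext e
  show zb z x r e.1 * U e * (zb z x r (e.1 + eT e.2))⁻¹ = z ^ sgn x r e * U e
  have hz1 : ∀ g, z⁻¹ * g = g * z⁻¹ := fun g => by
    rw [inv_mul_eq_iff_eq_mul, ← mul_assoc, hz, mul_assoc, mul_inv_cancel, mul_one]
  unfold zb sgn
  split_ifs with h1 h2 h2
  · simp [hz, mul_assoc]
  · simp
  · simp [hz1]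
  · simp

lemma zc_central {z : G} (hz : ∀ g, z * g = g * z) (x : Fin D → ZMod l) (r : ℕ) (e : Ed D l)
    (g : G) : zc z x r e * g = g * zc z x r e := by
  have h1 : Commute z g := hz g
  exact (h1.zpow_left _)

lemma zb_in {z : G} {x : Fin D → ZMod l} {r : ℕ} : zb z x r x = z := by
  unfold zb
  rw [rho1_self, if_pos (Nat.zero_le _)]

lemma zb_out {z : G} {x y : Fin D → ZMod l} {r : ℕ} (h : r < rho1 x y) : zb z x r y = 1 := by
  unfold zb
  rw [if_neg (not_le.2 h)]

end

end Pool.Agent.W653.CF
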