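import Mathlib
import Pool.Agent.H906R3.YM.Conc
import Pool.Agent.H906R3.YM.Equi

/-!
# The special unitary group: Lie algebra, completeness relation, Ricci curvature
-/

open MeasureTheory Matrix
open scoped Matrix.Norms.Frobenius ContDiff

namespace Pool.Agent.W653.CF

open Pool.Agent.H906R3.YM

set_option linter.unusedSectionVars false

noncomputable section

variable {N n : ℕ}

/-- The special unitary group. -/
def SUN (N : ℕ) : Subgroup (UN N) where
  carrier := {g | det (g : Mat N) = 1}
  mul_mem' := by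
    intro a b ha hb
    show det ((a : Mat N) * (b : Mat N)) = 1
    rw [det_mul, show det (a : Mat N) = 1 from ha, show det (b : Mat N) = 1 from hb, mul_one]
  one_mem' := det_one
  inv_mem' := by
    intro a ha
    show det (star (a : Mat N)) = 1
    rw [star_eq_conjTranspose, det_conjTranspose, show det (a : Mat N) = 1 from ha, star_one]

lemma det_mt (g : SUN N) : det (mt g) = 1 := g.2

lemma det_exp_skew {Y : Mat N} (hY : Yᴴ = -Y) :
    det (NormedSpace.exp Y) = Complex.exp (trace Y) := by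
  have hH : (Complex.I • Y).IsHermitian := by
    show (Complex.I • Y)ᴴ = _
    rw [conjTranspose_smul, hY]
    simp
  set U := (hH.eigenvectorUnitary : Mat N) with hU
  set d : Fin N → ℂ := fun i => -Complex.I * (hH.eigenvalues i : ℂ) with hd
  have hUU : U * star U = 1 := Unitary.mul_star_self_of_mem hH.eigenvectorUnitary.2
  have hunit : IsUnit U := ⟨⟨U, star U, hUU, mul_eq_one_comm.1 hUU⟩, rfl⟩
  have hUinv : U⁻¹ = star U := Matrix.inv_eq_right_inv hUU
  have h1 : Y = U * diagonal d * U⁻¹ := by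
    have h2 := hH.spectral_theorem
    rw [Unitary.conjStarAlgAut_apply] at h2
    have h3 : Y = (-Complex.I) • (Complex.I • Y) := by
      rw [smul_smul]; simp
    rw [h3, h2, hUinv]
    have h4 : diagonal d = (-Complex.I) • diagonal (RCLike.ofReal ∘ hH.eigenvalues) := by
      rw [← diagonal_smul]; rfl
    rw [h4, mul_smul_comm, smul_mul_assoc]
  have h2 : NormedSpace.exp Y = U * diagonal (NormedSpace.exp d) * U⁻¹ := by
    rw [h1, Matrix.exp_conj _ _ hunit, Matrix.exp_diagonal]
  have h3 : trace Y = ∑ i, d i := by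
    rw [h1, trace_mul_comm, ← mul_assoc, hUinv, mul_eq_one_comm.1 hUU, one_mul, trace_diagonal]
  rw [h2, det_mul, det_mul, det_diagonal, h3, Complex.exp_sum]
  have h4 : det U * det U⁻¹ = 1 := by rw [← det_mul, hUinv, hUU, det_one]
  have h5 : ∀ i, (NormedSpace.exp d) i = Complex.exp (d i) := fun i => by
    rw [Pi.coe_exp, Complex.exp_eq_exp_ℂ]
  calc det U * (∏ i, (NormedSpace.exp d) i) * det U⁻¹
      = (det U * det U⁻¹) * ∏ i, (NormedSpace.exp d) i := by ring
    _ = _ := by rw [h4, one_mul]; exact Finset.prod_congr rfl fun i _ => h5 i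


variable (B : Frame (SUN N) n)

lemma trace_X (a : Fin n) : trace (B.X a) = 0 := by
  have h1 : ∀ t : ℝ, Complex.exp ((t : ℂ) * trace (B.X a)) = 1 := by
    intro t
    have h2 := det_mt (B.ex a t)
    rw [B.ex_eq, det_exp_skew (by
      rw [conjTranspose_smul, B.skewX]; simp), trace_smul] at h2
    rw [← h2]
    congr 1
  have h3 : HasDerivAt (fun t : ℝ => Complex.exp ((t : ℂ) * trace (B.X a)))
      (Complex.exp ((0 : ℝ) * trace (B.X a)) * (1 * trace (B.X a))) 0 := by
    have h4 : HasDerivAt (fun t : ℝ => (t : ℂ)) 1 0 := Complex.ofRealCLM.hasDerivAt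
    exact (h4.mul_const _).cexp
  have h5 : (fun t : ℝ => Complex.exp ((t : ℂ) * trace (B.X a))) = fun _ => 1 := funext h1
  rw [h5] at h3
  have h6 := h3.unique (hasDerivAt_const (0 : ℝ) (1 : ℂ))
  simpa using h6

lemma exp_skew_unitary {Y : Mat N} (hY : Yᴴ = -Y) (t : ℝ) :
    NormedSpace.exp (t • Y) ∈ Matrix.unitaryGroup (Fin N) ℂ := by
  rw [Matrix.mem_unitaryGroup_iff, star_eq_conjTranspose, ← Matrix.exp_conjTranspose,
    conjTranspose_smul, hY, star_trivial, smul_neg]
  have h := Matrix.exp_add_of_commute (t • Y) (-(t • Y)) (Commute.neg_right rfl)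
  rw [add_neg_cancel, NormedSpace.exp_zero] at h
  exact h.symm

lemma mem_span {Y : Mat N} (hY : Yᴴ = -Y) (hT : trace Y = 0) :
    Y ∈ Submodule.span ℝ (Set.range B.X) := by
  refine B.full _ fun t => ⟨⟨⟨NormedSpace.exp (t • Y), exp_skew_unitary hY t⟩, ?_⟩, rfl⟩
  show det (NormedSpace.exp (t • Y)) = 1
  rw [det_exp_skew (by rw [conjTranspose_smul, hY]; simp), trace_smul, hT, smul_zero,
    Complex.exp_zero]

lemma ip_B (a b : Fin n) : ip (B.X a) (B.X b) = if a = b then 1 else 0 := B.orth a b

lemma expand {Y : Mat N} (hY : Y ∈ Submodule.span ℝ (Set.range B.X)) :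
    ∑ a, ip (B.X a) Y • B.X a = Y := by
  obtain ⟨c, hc⟩ := (Submodule.mem_span_range_iff_exists_fun ℝ).1 hY
  nth_rewrite 2 [← hc]
  refine Finset.sum_congr rfl fun b _ => ?_
  congr 1
  rw [← hc, map_sum]
  simp only [map_smul, ip_B, smul_eq_mul, mul_ite, mul_one, mul_zero, Finset.sum_ite_eq,
    Finset.mem_univ, if_true]

/-- the orthogonal projection to the Lie algebra -/
def prj (M : Mat N) : Mat N :=
  (1 / 2 : ℝ) • (M - Mᴴ) - ((((trace M).im / N : ℝ) : ℂ) * Complex.I) • (1 : Mat N)

lemma prj_skew (M : Mat N) : (prj M)ᴴ = -prj M := by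
  unfold prj
  rw [conjTranspose_sub, conjTranspose_smul, conjTranspose_smul, conjTranspose_sub,
    conjTranspose_conjTranspose, conjTranspose_one, star_trivial]
  have h : star ((((trace M).im / N : ℝ) : ℂ) * Complex.I) =
      -((((trace M).im / N : ℝ) : ℂ) * Complex.I) := by
    rw [star_mul', Complex.star_def, Complex.conj_ofReal, Complex.conj_I]; ring
  rw [h]
  module

lemma trace_prj (hN : 0 < N) (M : Mat N) : trace (prj M) = 0 := by
  unfold prj
  rw [trace_sub, trace_smul, trace_smul, trace_sub, trace_conjTranspose, trace_one,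
    Fintype.card_fin]
  have hN' : (N : ℂ) ≠ 0 := Nat.cast_ne_zero.2 hN.ne'
  apply Complex.ext
  · simp
  · simp
    field_simp
    ring

lemma ip_X_prj (a : Fin n) (M : Mat N) : ip (B.X a) (prj M) = ip (B.X a) M := by
  have h1 : ip (B.X a) Mᴴ = -ip (B.X a) M := by
    rw [ip_apply, ip_apply, B.skewX, neg_mul, neg_mul, trace_neg, trace_neg]
    have h2 : trace (B.X a * Mᴴ) = -star (trace (B.X a * M)) := by
      rw [← trace_conjTranspose, conjTranspose_mul, B.skewX, mul_neg, trace_neg, neg_neg,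
        trace_mul_comm]
    rw [h2]; simp
  have h3 : ip (B.X a) (((((trace M).im / N : ℝ) : ℂ) * Complex.I) • (1 : Mat N)) = 0 := by
    rw [ip_apply, mul_smul_comm, mul_one, trace_smul, B.skewX, trace_neg, trace_X]
    simp
  unfold prj
  rw [map_sub, h3, map_smul, map_sub, h1, smul_eq_mul]
  ring

lemma sum_ip (hN : 0 < N) (M : Mat N) : ∑ a, ip (B.X a) M • B.X a = prj M := by
  rw [← expand B (mem_span B (prj_skew M) (trace_prj hN M))]
  exact Finset.sum_congr rfl fun a _ => by rw [ip_X_prj]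

lemma X_entry (a : Fin n) (i j : Fin N) : (B.X a) i j =
    -((ip (B.X a) (single j i 1) : ℝ) : ℂ) +
      Complex.I * ((ip (B.X a) (Complex.I • single j i 1) : ℝ) : ℂ) := by
  have h1 : trace (B.X a * single j i 1) = (B.X a) i j := by
    rw [trace_mul_single]
    simp
  have h2 : ip (B.X a) (single j i 1) = -((B.X a) i j).re := by
    rw [ip_apply, B.skewX, neg_mul, trace_neg, h1, Complex.neg_re]
  have h3 : ip (B.X a) (Complex.I • single j i 1) = ((B.X a) i j).im := by
    rw [ip_apply, B.skewX, mul_smul_comm, neg_mul, trace_smul, trace_neg, h1]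
    simp
  rw [h2, h3]
  apply Complex.ext <;> simp

/-- the completeness relation of the Lie algebra of `SU(N)` -/
lemma fusion (hN : 0 < N) (i j : Fin N) : ∑ a, (B.X a) i j • B.X a =
    -(single j i (1 : ℂ)) + (if i = j then (1 / N : ℂ) else 0) • (1 : Mat N) := by
  have h1 : ∑ a, (B.X a) i j • B.X a =
      -prj (single j i (1 : ℂ)) + Complex.I • prj (Complex.I • single j i (1 : ℂ)) := by
    rw [← sum_ip B hN, ← sum_ip B hN, Finset.smul_sum, ← Finset.sum_neg_distrib,
      ← Finset.sum_add_distrib]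
    refine Finset.sum_congr rfl fun a _ => ?_
    rw [X_entry B a i j, add_smul, neg_smul, mul_smul]
    rfl
  rw [h1]
  have ht : trace (single j i (1 : ℂ)) = if i = j then 1 else 0 := by
    by_cases h : i = j
    · subst h; simp
    · rw [if_neg h]; exact trace_single_eq_of_ne _ _ _ (Ne.symm h)
  unfold prj
  rw [trace_smul, ht, conjTranspose_smul, conjTranspose_single, star_one]
  by_cases h : i = j
  · subst h
    simp only [if_true]
    have h2 : star Complex.I = -Complex.I := by simp
    rw [h2]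
    ext x y
    simp only [Matrix.add_apply, Matrix.neg_apply, Matrix.sub_apply, Matrix.smul_apply,
      smul_eq_mul, Complex.real_smul]
    apply Complex.ext <;> simp <;> ring
  · simp only [if_neg h]
    have h2 : star Complex.I = -Complex.I := by simp
    rw [h2]
    ext x y
    simp only [Matrix.add_apply, Matrix.neg_apply, Matrix.sub_apply, Matrix.smul_apply,
      smul_eq_mul, Complex.real_smul]
    apply Complex.ext <;> simp <;> ring

lemma sum_trace (hN : 0 < N) (M M' : Mat N) : ∑ a, trace (B.X a * M * B.X a * M') =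
    -(trace M * trace M') + (1 / N : ℂ) * trace (M * M') := by
  have h1 : ∀ a, trace (B.X a * M * B.X a * M') =
      ∑ i, ∑ j, (M * ((B.X a) i j • B.X a) * M') j i := by
    intro a
    rw [show B.X a * M * B.X a * M' = B.X a * (M * B.X a * M') by
      simp only [Matrix.mul_assoc]]
    rw [trace]
    refine Finset.sum_congr rfl fun i _ => ?_
    rw [diag_apply, mul_apply]
    refine Finset.sum_congr rfl fun j _ => ?_
    rw [Matrix.mul_smul, Matrix.smul_mul, Matrix.smul_apply, smul_eq_mul]
  rw [Finset.sum_congr rfl fun a _ => h1 a, Finset.sum_comm]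
  have h2 : ∀ i, ∑ a, ∑ j, (M * ((B.X a) i j • B.X a) * M') j i =
      ∑ j, (-(M j j * M' i i) + (if i = j then (1 / N : ℂ) else 0) * (M * M') j i) := by
    intro i
    rw [Finset.sum_comm]
    refine Finset.sum_congr rfl fun j _ => ?_
    have h3 : ∑ a, (M * ((B.X a) i j • B.X a) * M') j i =
        (M * (∑ a, (B.X a) i j • B.X a) * M') j i := by
      rw [Finset.mul_sum, Finset.sum_mul, Matrix.sum_apply]
    rw [h3, fusion B hN, mul_add, add_mul, Matrix.add_apply, mul_neg, neg_mul, Matrix.neg_apply,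
      Matrix.mul_smul, Matrix.smul_mul, Matrix.smul_apply, mul_one, smul_eq_mul]
    congr 2
    rw [mul_apply, Finset.sum_eq_single i]
    · rw [mul_single_apply_same, mul_one]
    · intro k _ hk
      rw [mul_single_apply_of_ne _ _ _ _ _ hk, zero_mul]
    · intro h; exact absurd (Finset.mem_univ i) h
  rw [Finset.sum_congr rfl fun i _ => h2 i]
  simp only [Finset.sum_add_distrib, Finset.sum_neg_distrib, ite_mul, zero_mul,
    Finset.sum_ite_eq, Finset.mem_univ, if_true]
  congr 1
  · rw [trace, trace, Finset.sum_mul_sum, Finset.sum_comm]; rfl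
  · rw [← Finset.mul_sum]; rfl

/-- commutator -/
def br (A M : Mat N) : Mat N := A * M - M * A

lemma br_skew {A M : Mat N} (hA : Aᴴ = -A) (hM : Mᴴ = -M) : (br A M)ᴴ = -br A M := by
  unfold br
  rw [conjTranspose_sub, conjTranspose_mul, conjTranspose_mul, hA, hM]
  noncomm_ring

lemma ip_br {A M Y : Mat N} (hA : Aᴴ = -A) (hM : Mᴴ = -M) :
    ip (br A M) Y = -ip M (br A Y) := by
  rw [ip_apply, ip_apply, br_skew hA hM, hM]
  unfold br
  rw [neg_mul, neg_mul, trace_neg, trace_neg, sub_mul, mul_sub, trace_sub, trace_sub]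
  have h1 : trace (A * M * Y) = trace (M * (Y * A)) := by
    rw [Matrix.mul_assoc, trace_mul_comm, Matrix.mul_assoc]
  have h2 : trace (M * A * Y) = trace (M * (A * Y)) := by rw [Matrix.mul_assoc]
  rw [h1, h2]
  simp

lemma parseval {Z : Mat N} (hZ : Z ∈ Submodule.span ℝ (Set.range B.X)) :
    ∑ c, ip (B.X c) Z ^ 2 = ip Z Z := by
  have h1 := congrArg (ip Z) (expand B hZ)
  rw [map_sum] at h1
  rw [← h1]
  refine Finset.sum_congr rfl fun c _ => ?_
  rw [map_smul, smul_eq_mul, ip_comm Z, sq]

lemma sum_br (hN : 0 < N) {Y : Mat N} (hY : Yᴴ = -Y) (hT : trace Y = 0) :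
    ∑ a, ip (br (B.X a) Y) (br (B.X a) Y) = 2 * N * ip Y Y := by
  have h1 : ∀ a, ip (br (B.X a) Y) (br (B.X a) Y) =
      (2 * (trace (B.X a * 1 * B.X a * (Y * Y))) - 2 * trace (B.X a * Y * B.X a * Y)).re := by
    intro a
    rw [ip_apply, br_skew (B.skewX a) hY]
    congr 1
    unfold br
    set X := B.X a
    have e1 : -(X * Y - Y * X) * (X * Y - Y * X) =
        -(X * Y * X * Y) + X * Y * Y * X + Y * X * X * Y - Y * X * Y * X := by noncomm_ring
    have e2 : trace (X * Y * Y * X) = trace (X * 1 * X * (Y * Y)) := by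
      rw [trace_mul_comm, mul_one]; simp only [Matrix.mul_assoc]
    have e3 : trace (Y * X * X * Y) = trace (X * 1 * X * (Y * Y)) := by
      rw [show Y * X * X * Y = Y * (X * X * Y) by simp only [Matrix.mul_assoc], trace_mul_comm,
        mul_one]
      simp only [Matrix.mul_assoc]
    have e4 : trace (Y * X * Y * X) = trace (X * Y * X * Y) := by
      rw [show Y * X * Y * X = Y * (X * Y * X) by simp only [Matrix.mul_assoc], trace_mul_comm]
    rw [e1, trace_sub, trace_add, trace_add, trace_neg, e2, e3, e4]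
    ring
  rw [Finset.sum_congr rfl fun a _ => h1 a, ← Complex.re_sum, Finset.sum_sub_distrib,
    ← Finset.mul_sum, ← Finset.mul_sum, sum_trace B hN, sum_trace B hN, hT, one_mul]
  have h2 : trace (1 : Mat N) = N := by rw [trace_one, Fintype.card_fin]
  rw [h2, ip_apply, hY, neg_mul, trace_neg]
  have hN' : (N : ℂ) ≠ 0 := Nat.cast_ne_zero.2 hN.ne'
  have h3 : 2 * (-(↑N * trace (Y * Y)) + (1 / N : ℂ) * trace (Y * Y)) -
      2 * (-(0 * 0) + (1 / N : ℂ) * trace (Y * Y)) = (((2 * N : ℝ) : ℂ)) * (-trace (Y * Y)) := by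
    push_cast; ring
  rw [h3, Complex.re_ofReal_mul]

/-- The Ricci curvature of `SU(N)`. -/
theorem ricci_SUN (hN : 0 < N) (v : Fin n → ℝ) :
    (N / 2 : ℝ) * ∑ b, v b ^ 2 ≤ 1 / 4 * ∑ a, ∑ c, (∑ b, B.toLD.sc a c b * v b) ^ 2 := by
  set Y : Mat N := ∑ b, v b • B.X b with hYdef
  have hY : Yᴴ = -Y := by
    rw [hYdef, conjTranspose_sum, ← Finset.sum_neg_distrib]
    refine Finset.sum_congr rfl fun b _ => ?_
    rw [conjTranspose_smul, B.skewX, star_trivial, smul_neg]
  have hT : trace Y = 0 := by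
    rw [hYdef, trace_sum]
    exact Finset.sum_eq_zero fun b _ => by rw [trace_smul, trace_X, smul_zero]
  have h1 : ∀ a c, ∑ b, B.toLD.sc a c b * v b = -ip (B.X c) (br (B.X a) Y) := by
    intro a c
    rw [← ip_br (B.skewX a) (B.skewX c), hYdef, map_sum]
    refine Finset.sum_congr rfl fun b _ => ?_
    rw [sc_ip, map_smul, smul_eq_mul, mul_comm, ip_comm]
    rfl
  have h2 : ∑ a, ∑ c, (∑ b, B.toLD.sc a c b * v b) ^ 2 =
      ∑ a, ip (br (B.X a) Y) (br (B.X a) Y) := by
    refine Finset.sum_congr rfl fun a _ => ?_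
    rw [← parseval B (mem_span B (br_skew (B.skewX a) hY) (by
      unfold br; rw [trace_sub, trace_mul_comm, sub_self]))]
    refine Finset.sum_congr rfl fun c _ => ?_
    rw [h1, neg_sq]
  have h3 : ip Y Y = ∑ b, v b ^ 2 := by
    nth_rewrite 1 [hYdef]
    rw [ip_comm, map_sum]
    refine Finset.sum_congr rfl fun b _ => ?_
    rw [map_smul, smul_eq_mul, sq, ip_comm, hYdef, map_sum]
    congr 1
    simp only [map_smul, ip_B, smul_eq_mul, mul_ite, mul_one, mul_zero, Finset.sum_ite_eq,
      Finset.mem_univ, if_true]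
  rw [h2, sum_br B hN hY hT, h3]
  exact le_of_eq (by ring)

end

end Pool.Agent.W653.CF
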