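import Mathlib
import Pool.Agent.W58.PoinE
import Pool.Agent.W504.YM.SU
import Pool.Agent.W653.CF.Cuts
import Pool.Agent.W653.CF.SUN

/-!
# The centre of the special unitary group and the twists on the cuts
-/

open MeasureTheory Matrix
open scoped Matrix.Norms.Frobenius ContDiff

namespace Pool.Agent.W653.CF

open Pool.Agent.H906R3.YM Pool.Agent.W58

set_option linter.unusedSectionVars false

noncomputable section

variable {N n : ℕ}

/-- generator of the centre -/
def Yc (N : ℕ) [NeZero N] : Mat N :=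
  diagonal fun k => Complex.I * (2 * Real.pi / N - if k = 0 then (2 * Real.pi : ℂ) else 0)

lemma Yc_skew [NeZero N] : (Yc N)ᴴ = -Yc N := by
  unfold Yc
  rw [diagonal_conjTranspose]
  refine Eq.trans ?_ (diagonal_neg _).symm
  congr 1
  funext k
  simp only [Pi.star_apply, star_mul', Complex.star_def, Complex.conj_I, map_sub, map_div₀,
    map_mul, Complex.conj_ofReal, map_natCast, map_ofNat]
  split_ifs
  · simp
    exact map_ofNat _ 2
  · simp

lemma Yc_trace [NeZero N] : trace (Yc N) = 0 := by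
  unfold Yc
  rw [trace_diagonal, ← Finset.mul_sum, Finset.sum_sub_distrib, Finset.sum_const,
    Finset.card_univ, Fintype.card_fin, nsmul_eq_mul, Finset.sum_ite_eq' Finset.univ (0 : Fin N),
    if_pos (Finset.mem_univ _)]
  have : (N : ℂ) ≠ 0 := Nat.cast_ne_zero.2 (NeZero.ne N)
  field_simp
  ring

lemma Yc_exp [NeZero N] : NormedSpace.exp (Yc N) =
    Complex.exp (2 * Real.pi * Complex.I / N) • (1 : Mat N) := by
  unfold Yc
  rw [Matrix.exp_diagonal, ← diagonal_one, ← diagonal_smul]
  congr 1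
  funext k
  rw [Pi.coe_exp, ← Complex.exp_eq_exp_ℂ]
  simp only [Pi.smul_apply, smul_eq_mul, mul_one]
  by_cases h : k = 0
  · rw [if_pos h, mul_sub, Complex.exp_sub]
    have h1 : Complex.exp (Complex.I * (2 * Real.pi)) = 1 := by
      rw [mul_comm]; exact Complex.exp_two_pi_mul_I
    rw [h1, div_one]
    congr 1; ring
  · rw [if_neg h, sub_zero]
    congr 1; ring

/-- The centre of `SU(N)` is generated by an element reached by a one-parameter group. -/
lemma exists_center [NeZero N] (B : Frame (SUN N) n) : ∃ z : SUN N,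
    mt z = Complex.exp (2 * Real.pi * Complex.I / N) • (1 : Mat N) ∧
      ∃ (v : Fin n → ℝ) (c : ℝ → SUN N), Pool.Agent.W504.YM.Pth B.toLD v c ∧ c 1 = z := by
  obtain ⟨v, c, hc, h1, _⟩ := Pool.Agent.W504.YM.Pth_of B (Y := Yc N) (fun t =>
    ⟨⟨⟨NormedSpace.exp (t • Yc N), exp_skew_unitary Yc_skew t⟩, by
      show det (NormedSpace.exp (t • Yc N)) = 1
      rw [det_exp_skew (by rw [conjTranspose_smul, Yc_skew]; simp), trace_smul, Yc_trace,
        smul_zero, Complex.exp_zero]⟩, rfl⟩)
  exact ⟨c 1, by rw [h1, Yc_exp], v, c, hc, rfl⟩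

section cut

variable {G : Type*} [Group G] [TopologicalSpace G] {L : LD G N n}
  [IsTopologicalGroup G] [CompactSpace G] [SecondCountableTopology G]
  [MeasurableSpace G] [BorelSpace G] (μ : Measure G) [IsProbabilityMeasure μ]
  [μ.IsMulLeftInvariant]
  {D l : ℕ} [NeZero l]

/-- the links of a cut -/
abbrev CS (x : Fin D → ZMod l) (r : ℕ) := {e : Ed D l // Cut x r e}

instance (x : Fin D → ZMod l) (r : ℕ) : DecidablePred (Cut x r) := fun _ =>
  inferInstanceAs (Decidable (¬_))

/-- control of the twist by the gradient on the cut -/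
lemma acc_cut {z : G} {p : ℕ} (hp : 0 < p) (hz : z ^ p = 1)
    {v : Fin n → ℝ} {c : ℝ → G} (hc : Pool.Agent.W504.YM.Pth L v c) (hc1 : c 1 = z)
    (x : Fin D → ZMod l) (r : ℕ) :
    Acc L μ (fun s : CS x r => s.1) (zc z x r) := by
  refine Acc.of_single (fun s => ?_) (fun e he => ?_)
  · have h1 : Acc L μ (fun s : CS x r => s.1) (Pi.mulSingle s.1 z) := by
      have := Acc.path (μ := μ) (ι := fun s : CS x r => s.1) hc.d hc.zero s
      rw [hc1] at this
      exact this
    show Acc L μ (fun s : CS x r => s.1) (Pi.mulSingle s.1 (zc z x r s.1))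
    rcases sgn_cases x r s.1 with h | h | h
    · have h2 : zc z x r s.1 = 1 := by unfold zc; rw [h, zpow_zero]
      rw [h2, Pi.mulSingle_one]
      exact Acc.one _
    · have h2 : zc z x r s.1 = z := by unfold zc; rw [h, zpow_one]
      rw [h2]; exact h1
    · have h2 : zc z x r s.1 = z ^ (p - 1) := by
        unfold zc
        rw [h, _root_.zpow_neg_one, inv_eq_iff_mul_eq_one, ← pow_succ', Nat.sub_add_cancel hp, hz]
      rw [h2, Pi.mulSingle_pow]
      exact h1.pow _
  · have h1 : ¬Cut x r e := fun h => he ⟨⟨e, h⟩, rfl⟩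
    unfold zc
    rw [sgn_eq_zero h1, zpow_zero]

/-- gauge invariant functions are not changed by the twist -/
lemma tw_inv {z : G} (hz : ∀ g, z * g = g * z) (x : Fin D → ZMod l) (r : ℕ)
    {ψ : Sm L (Ed D l)} (hψ : Inv ψ) : tw (zc z x r) ψ = ψ := by
  refine ev_ext fun U => ?_
  rw [ev_tw, ← gt_zb hz]
  exact congrArg (L.ev U) (hψ (zb z x r))

lemma cen_zc {z : G} (hz : ∀ g, z * g = g * z) (x : Fin D → ZMod l) (r : ℕ) :
    Cen (zc z x r) := fun e g => zc_central hz x r e g

end cut

end

end Pool.Agent.W653.CF
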