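import Mathlib
import Pool.Agent.W653.CF.Center

/-!
# Cuts of the periodic lattice by hyperplanes: electric flux
-/

open MeasureTheory Matrix
open scoped Matrix.Norms.Frobenius ContDiff

namespace Pool.Agent.W653.CF

open Pool.Agent.H906R3.YM Pool.Agent.W58

set_option linter.unusedSectionVars false

noncomputable section

variable {D l : ℕ}

/-- the links in direction `i` which start on the hyperplane `s i = r` -/
def Hyp (i : Fin D) (r : ZMod l) (e : Ed D l) : Prop := e.2 = i ∧ e.1 i = r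

instance (i : Fin D) (r : ZMod l) : DecidablePred (Hyp i r) := fun _ =>
  inferInstanceAs (Decidable (_ ∧ _))

lemma Hyp.disj {i i' : Fin D} {r r' : ZMod l} {e : Ed D l} (h : Hyp i r e) (h' : Hyp i' r' e) :
    i = i' ∧ r = r' := by
  have h1 : i = i' := h.1.symm.trans h'.1
  subst h1
  exact ⟨rfl, h.2.symm.trans h'.2⟩

section

variable {G : Type*} [Group G]

/-- multiplication by `z` on the links which cross a hyperplane -/
def hz (z : G) (i : Fin D) (r : ZMod l) : Ed D l → G := fun e =>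
  if Hyp i r e then z else 1

lemma hz_of {z : G} {i : Fin D} {r : ZMod l} {e : Ed D l} (h : Hyp i r e) :
    hz z i r e = z := if_pos h

lemma hz_not {z : G} {i : Fin D} {r : ZMod l} {e : Ed D l} (h : ¬Hyp i r e) :
    hz z i r e = 1 := if_neg h

lemma hz_central {z : G} (hzc : ∀ g, z * g = g * z) (i : Fin D) (r : ZMod l) (e : Ed D l)
    (g : G) : hz z i r e * g = g * hz z i r e := by
  unfold hz
  split_ifs
  · exact hzc g
  · rw [one_mul, mul_one]

/-- plaquette variables are not changed by the twist -/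
lemma plqT_hz {z : G} (hzc : ∀ g, z * g = g * z) (i : Fin D) (r : ZMod l) (U : Ed D l → G)
    (x : Fin D → ZMod l) {a b : Fin D} (hab : a ≠ b) :
    plqT (hz z i r * U) x a b = plqT U x a b := by
  have hc := hz_central hzc i r
  have e1 : hz z i r (x + eT b, a) = hz z i r (x, a) := by
    unfold hz Hyp
    by_cases ha : a = i
    · subst ha
      have : (x + eT b : Fin D → ZMod l) a = x a := by
        simp [eT, Pi.single_eq_of_ne hab]
      simp only [this]
    · simp [ha]
  have e2 : hz z i r (x + eT a, b) = hz z i r (x, b) := by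
    unfold hz Hyp
    by_cases hb : b = i
    · subst hb
      have : (x + eT a : Fin D → ZMod l) b = x b := by
        simp [eT, Pi.single_eq_of_ne hab.symm]
      simp only [this]
    · simp [hb]
  unfold plqT
  simp only [Pi.mul_apply, e1, e2]
  set p := hz z i r (x, a) with hp
  set q := hz z i r (x, b) with hq
  have hpc : ∀ g, p * g = g * p := hc (x, a)
  have hqc : ∀ g, q * g = g * q := hc (x, b)
  have hpi : ∀ g, p⁻¹ * g = g * p⁻¹ := fun g => by
    rw [inv_mul_eq_iff_eq_mul, ← mul_assoc, hpc, mul_assoc, mul_inv_cancel, mul_one]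
  set A := U (x, a)
  set B := U (x + eT a, b)
  set A' := U (x + eT b, a)
  set B' := U (x, b)
  calc p * A * (q * B) * (p * A')⁻¹ * (q * B')⁻¹
      = p * A * (q * B) * (A'⁻¹ * p⁻¹) * (B'⁻¹ * q⁻¹) := by rw [_root_.mul_inv_rev, _root_.mul_inv_rev]
    _ = p * A * (q * B) * (p⁻¹ * A'⁻¹) * (B'⁻¹ * q⁻¹) := by rw [hpi]
    _ = (p * A) * ((q * B) * p⁻¹) * A'⁻¹ * (B'⁻¹ * q⁻¹) := by simp only [mul_assoc]
    _ = (p * A) * (p⁻¹ * (q * B)) * A'⁻¹ * (B'⁻¹ * q⁻¹) := by rw [← hpi]
    _ = (A * p) * (p⁻¹ * (q * B)) * A'⁻¹ * (B'⁻¹ * q⁻¹) := by rw [hpc A]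
    _ = A * (q * B) * A'⁻¹ * (B'⁻¹ * q⁻¹) := by simp only [mul_assoc, mul_inv_cancel_left]
    _ = A * (B * q) * A'⁻¹ * (B'⁻¹ * q⁻¹) := by rw [hqc B]
    _ = A * B * (q * (A'⁻¹ * B'⁻¹)) * q⁻¹ := by simp only [mul_assoc]
    _ = A * B * ((A'⁻¹ * B'⁻¹) * q) * q⁻¹ := by rw [hqc (A'⁻¹ * B'⁻¹)]
    _ = _ := by simp only [mul_assoc, mul_inv_cancel, mul_one]

/-- neighbouring hyperplanes give gauge equivalent twists -/
lemma gt_hz {z : G} (hzc : ∀ g, z * g = g * z) (i : Fin D) (r : ZMod l) (U : Ed D l → G) :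
    gt (fun s => if s i = r + 1 then z else 1) (hz z i r * U) = hz z i (r + 1) * U := by
  have hz1 : ∀ g, z⁻¹ * g = g * z⁻¹ := fun g => by
    rw [inv_mul_eq_iff_eq_mul, ← mul_assoc, hzc, mul_assoc, mul_inv_cancel, mul_one]
  funext e
  show (if e.1 i = r + 1 then z else 1) * (hz z i r e * U e) *
    (if (e.1 + eT e.2 : Fin D → ZMod l) i = r + 1 then z else 1)⁻¹ = hz z i (r + 1) e * U e
  by_cases hi : e.2 = i
  · have h1 : (e.1 + eT e.2 : Fin D → ZMod l) i = e.1 i + 1 := by
      rw [hi]; simp [eT]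
    rw [h1]
    have h2 : (e.1 i + 1 = r + 1) ↔ e.1 i = r := add_left_inj 1
    by_cases h3 : e.1 i = r <;> by_cases h4 : e.1 i = r + 1
    · rw [hz_of ⟨hi, h3⟩, hz_of ⟨hi, h4⟩, if_pos h4, if_pos (h2.2 h3), mul_assoc, ← hz1,
        inv_mul_cancel_left]
    · rw [hz_of ⟨hi, h3⟩, hz_not (fun h => h4 h.2), if_neg h4, if_pos (h2.2 h3), one_mul,
        one_mul, mul_assoc, ← hz1, mul_inv_cancel_left]
    · rw [hz_not (fun h => h3 h.2), hz_of ⟨hi, h4⟩, if_pos h4, if_neg (fun h => h3 (h2.1 h)),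
        one_mul, inv_one, mul_one]
    · rw [hz_not (fun h => h3 h.2), hz_not (fun h => h4 h.2), if_neg h4,
        if_neg (fun h => h3 (h2.1 h)), one_mul, one_mul, inv_one, mul_one]
  · have h1 : (e.1 + eT e.2 : Fin D → ZMod l) i = e.1 i := by
      simp [eT, Pi.single_eq_of_ne (Ne.symm hi)]
    rw [h1, hz_not (fun h => hi h.1), hz_not (fun h => hi h.1), one_mul]
    split_ifs
    · rw [mul_assoc, ← hz1, mul_inv_cancel_left]
    · simp

lemma hz_pow (z : G) (i : Fin D) (r : ZMod l) (t : ℕ) : (hz z i r) ^ t = hz (z ^ t) i r := by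
  funext e
  rw [Pi.pow_apply]
  unfold hz
  split_ifs
  · rfl
  · rw [one_pow]

end

section cut

variable {N n : ℕ} {G : Type*} [Group G] [TopologicalSpace G] {L : LD G N n}
  [IsTopologicalGroup G] [CompactSpace G] [SecondCountableTopology G]
  [MeasurableSpace G] [BorelSpace G] (μ : Measure G) [IsProbabilityMeasure μ]
  [μ.IsMulLeftInvariant] [NeZero l]

/-- the links of a hyperplane cut -/
abbrev HS (i : Fin D) (r : ZMod l) := {e : Ed D l // Hyp i r e}

lemma acc_hyp {z : G} {v : Fin n → ℝ} {c : ℝ → G} (hc : Pool.Agent.W504.YM.Pth L v c)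
    (hc1 : c 1 = z) (i : Fin D) (r : ZMod l) :
    Acc L μ (fun s : HS i r => s.1) (hz z i r) := by
  refine Acc.of_single (fun s => ?_) (fun e he => ?_)
  · have h1 := Acc.path (μ := μ) (ι := fun s : HS i r => s.1) hc.d hc.zero s
    rw [hc1] at h1
    show Acc L μ (fun s : HS i r => s.1) (Pi.mulSingle s.1 (hz z i r s.1))
    have h2 : hz z i r s.1 = z := by unfold hz; rw [if_pos s.2]
    rw [h2]; exact h1
  · have h1 : ¬Hyp i r e := fun h => he ⟨⟨e, h⟩, rfl⟩
    unfold hz
    rw [if_neg h1]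

lemma cen_hz {z : G} (hzc : ∀ g, z * g = g * z) (i : Fin D) (r : ZMod l) :
    Cen (hz z i r : Ed D l → G) := fun e g => hz_central hzc i r e g

/-- the magnetic energy is not changed by the twist -/
lemma tw_VT {z : G} (hzc : ∀ g, z * g = g * z) (i : Fin D) (r : ZMod l) :
    tw (hz z i r) (VT L D l) = VT L D l := by
  refine ev_ext fun U => ?_
  rw [ev_tw, VT_apply, VT_apply]
  refine Finset.sum_congr rfl fun p _ => ?_
  rw [plqT_hz hzc i r U p.1.1 (ne_of_lt p.2)]

end cut

end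

end Pool.Agent.W653.CF
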