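import Mathlib
import Pool.Agent.W58.Conf
import Pool.Agent.W58.Str
import Pool.Agent.W653.CF.Flux

/-!
# Control of the twists on the cuts by the gradient
-/

open MeasureTheory Matrix
open scoped Matrix.Norms.Frobenius ContDiff

namespace Pool.Agent.W653.CF

open Pool.Agent.H906R3.YM Pool.Agent.W58

set_option linter.unusedSectionVars false

noncomputable section

variable {N n : ℕ} {G : Type*} [Group G] [TopologicalSpace G] {L : LD G N n}
  [IsTopologicalGroup G] [CompactSpace G] [SecondCountableTopology G]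
  [MeasurableSpace G] [BorelSpace G] (μ : Measure G) [IsProbabilityMeasure μ]
  [μ.IsMulLeftInvariant]

lemma acc_fin {E : Type*} [Fintype E] [DecidableEq E] {z : G}
    {v : Fin n → ℝ} {γ : ℝ → G} (hγ : Pool.Agent.W504.YM.Pth L v γ) (hγ1 : γ 1 = z)
    (C : Finset E) {c : E → G} (hin : ∀ e ∈ C, ∃ t : ℕ, c e = z ^ t)
    (hout : ∀ e, e ∉ C → c e = 1) : Acc L μ (cι C) c := by
  refine Acc.of_single (fun s => ?_) (fun e he => ?_)
  · have h1 := Acc.path (μ := μ) (ι := cι C) hγ.d hγ.zero s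
    rw [hγ1] at h1
    obtain ⟨t, ht⟩ := hin s.1 s.2
    show Acc L μ (cι C) (Pi.mulSingle s.1 (c s.1))
    rw [ht, Pi.mulSingle_pow]
    exact h1.pow t
  · exact hout e fun h => he ⟨⟨e, h⟩, rfl⟩

variable {D l : ℕ} [NeZero l]

/-- the cut as a finite set -/
def CuF (x : Fin D → ZMod l) (r : ℕ) : Finset (Ed D l) := Finset.univ.filter (Cut x r)

lemma CuF_disj (x : Fin D → ZMod l) {r r' : ℕ} (h : r ≠ r') : Disjoint (CuF x r) (CuF x r') := by
  rw [Finset.disjoint_left]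
  intro e he he'
  exact h (Cut.disj (Finset.mem_filter.1 he).2 (Finset.mem_filter.1 he').2)

lemma acc_CuF {z : G} {p : ℕ} (hp : 0 < p) (hz : z ^ p = 1)
    {v : Fin n → ℝ} {γ : ℝ → G} (hγ : Pool.Agent.W504.YM.Pth L v γ) (hγ1 : γ 1 = z)
    (x : Fin D → ZMod l) (r : ℕ) : Acc L μ (cι (CuF x r)) (zc z x r) := by
  refine acc_fin μ hγ hγ1 _ (fun e _ => ?_) (fun e he => ?_)
  · unfold zc
    rcases sgn_cases x r e with h | h | h
    · exact ⟨0, by rw [h, zpow_zero, pow_zero]⟩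
    · exact ⟨1, by rw [h, zpow_one, pow_one]⟩
    · refine ⟨p - 1, ?_⟩
      rw [h, _root_.zpow_neg_one, inv_eq_iff_mul_eq_one, ← pow_succ', Nat.sub_add_cancel hp, hz]
  · have h1 : ¬Cut x r e := fun h => he (Finset.mem_filter.2 ⟨Finset.mem_univ _, h⟩)
    unfold zc
    rw [sgn_eq_zero h1, zpow_zero]

/-- the hyperplane cut as a finite set -/
def HF (i : Fin D) (r : ZMod l) : Finset (Ed D l) := Finset.univ.filter (Hyp i r)

lemma HF_disj {i i' : Fin D} {r r' : ZMod l} (h : (i, r) ≠ (i', r')) :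
    Disjoint (HF i r) (HF i' r') := by
  rw [Finset.disjoint_left]
  intro e he he'
  obtain ⟨h1, h2⟩ := Hyp.disj (Finset.mem_filter.1 he).2 (Finset.mem_filter.1 he').2
  exact h (by rw [h1, h2])

lemma acc_HF {z : G} {v : Fin n → ℝ} {γ : ℝ → G} (hγ : Pool.Agent.W504.YM.Pth L v γ)
    (hγ1 : γ 1 = z) (i : Fin D) (r : ZMod l) : Acc L μ (cι (HF i r)) (hz z i r) := by
  refine acc_fin μ hγ hγ1 _ (fun e he => ⟨1, ?_⟩) (fun e he => ?_)
  · rw [pow_one]
    exact hz_of (Finset.mem_filter.1 he).2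
  · exact hz_not fun h => he (Finset.mem_filter.2 ⟨Finset.mem_univ _, h⟩)

end

end Pool.Agent.W653.CF
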