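import Mathlib
import Pool.Agent.W653.CF.Acc

/-!
# The lower bounds for balls and for hyperplanes
-/

open MeasureTheory Matrix
open scoped Matrix.Norms.Frobenius ContDiff

namespace Pool.Agent.W653.CF

open Pool.Agent.H906R3.YM Pool.Agent.W58

set_option linter.unusedSectionVars false

noncomputable section

variable {N n : ℕ} {G : Type*} [Group G] [TopologicalSpace G] {L : LD G N n}
  [IsTopologicalGroup G] [CompactSpace G] [SecondCountableTopology G]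
  [MeasurableSpace G] [BorelSpace G] (μ : Measure G) [IsProbabilityMeasure μ]
  [μ.IsMulLeftInvariant] [μ.IsOpenPosMeasure] {D l : ℕ} [NeZero l]

/-- Existence of positive invariant functions with bounded second derivatives of the logarithm
whose local energy is at least `E0` in the mean with a given weight. -/
def Near (L : LD G N n) (μ : Measure G) [IsProbabilityMeasure μ] [μ.IsMulLeftInvariant]
    (D l : ℕ) [NeZero l] (g E0 Y : ℝ) : Prop :=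
  ∀ W : Sm L (Ed D l), (∀ U, 0 ≤ L.ev U W) → ∀ ε : ℝ, 0 < ε → ∃ ψ p : Sm L (Ed D l),
    p * ψ = 1 ∧ Inv ψ ∧
    (∀ c : Ed D l → G, Cen c → tw c (VT L D l) = VT L D l → tw c ψ = ψ) ∧
    (∀ (x : Ed D l → G) (ξ : Ed D l × Fin n → ℝ),
      ∑ i, ∑ j, ξ i * ξ j * L.ev x (L.Dv i (p * L.Dv j ψ)) ≤ (Y + ε) * ∑ i, ξ i ^ 2) ∧
    (E0 - ε) * L.I μ W ≤
      L.I μ (W * (p * HH (L.Dv (E := Ed D l)) g (VT L D l) ψ))

variable {μ}

/-- confinement on the balls around a site -/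
theorem conf_ball (hN : 0 < N) {z : G} (hz : ∀ h, z * h = h * z) {p : ℕ} (hp : 0 < p)
    (hzp : z ^ p = 1) {v : Fin n → ℝ} {γ : ℝ → G} (hγ : Pool.Agent.W504.YM.Pth L v γ)
    (hγ1 : γ 1 = z) {K Y : ℝ} (hY : 2 * Y < K)
    (hK : ∀ v : Fin n → ℝ, K * ∑ b, v b ^ 2 ≤ 1 / 4 * ∑ a, ∑ c, (∑ b, L.sc a c b * v b) ^ 2)
    {g E0 : ℝ} (hnear : Near L μ D l g E0 Y) (x : Fin D → ZMod l) (T : Finset ℕ)
    {φ : Sm L (Ed D l)} (hT : ∀ r ∈ T, PrT p (zc z x r) φ) :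
    (E0 + g ^ 2 / 2 * ((K - 2 * Y) * T.card)) * L.I μ (φ * φ) ≤
      g ^ 2 / 2 * L.I μ (Gam (L.Dv (E := Ed D l)) φ φ) +
        1 / g ^ 2 * L.I μ (VT L D l * (φ * φ)) := by
  have h := conf (μ := μ) hN (R := {r // r ∈ T}) (fun r => CuF x r.1)
    (fun r s hrs => CuF_disj x fun h => hrs (Subtype.ext h)) (fun r => zc z x r.1)
    (fun r => cen_zc hz x r.1) (fun r => acc_CuF μ hp hzp hγ hγ1 x r.1) hp (u := φ)
    (fun r => hT r.1 r.2) hY hK (g := g) (E0 := E0) (V := VT L D l) (by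
      intro ε hε
      obtain ⟨ψ, p, h1, h2, -, h4, h5⟩ := hnear (φ * φ) (fun U => by
        rw [map_mul]; exact mul_self_nonneg _) ε hε
      exact ⟨ψ, p, h1, fun r => tw_inv hz x r.1 h2, h4, h5⟩)
  rw [Fintype.card_coe] at h
  exact h

/-- confinement on the hyperplanes -/
theorem conf_flux (hN : 0 < N) {z : G} (hz1 : ∀ h, z * h = h * z) {p : ℕ} (hp : 0 < p)
    {v : Fin n → ℝ} {γ : ℝ → G} (hγ : Pool.Agent.W504.YM.Pth L v γ)
    (hγ1 : γ 1 = z) {K Y : ℝ} (hY : 2 * Y < K)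
    (hK : ∀ v : Fin n → ℝ, K * ∑ b, v b ^ 2 ≤ 1 / 4 * ∑ a, ∑ c, (∑ b, L.sc a c b * v b) ^ 2)
    {g E0 : ℝ} (hnear : Near L μ D l g E0 Y) (T : Finset (Fin D))
    {φ : Sm L (Ed D l)} (hT : ∀ i ∈ T, ∀ r, PrT p (hz z i r) φ) :
    (E0 + g ^ 2 / 2 * ((K - 2 * Y) * (T.card * l : ℕ))) * L.I μ (φ * φ) ≤
      g ^ 2 / 2 * L.I μ (Gam (L.Dv (E := Ed D l)) φ φ) +
        1 / g ^ 2 * L.I μ (VT L D l * (φ * φ)) := by
  have h := conf (μ := μ) hN (R := {i // i ∈ T} × ZMod l) (fun r => HF r.1.1 r.2)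
    (fun r s hrs => HF_disj fun h => hrs (Prod.ext (Subtype.ext (Prod.ext_iff.1 h).1)
      (Prod.ext_iff.1 h).2)) (fun r => hz z r.1.1 r.2)
    (fun r => cen_hz hz1 r.1.1 r.2) (fun r => acc_HF μ hγ hγ1 r.1.1 r.2) hp (u := φ)
    (fun r => hT r.1.1 r.1.2 r.2) hY hK (g := g) (E0 := E0) (V := VT L D l) (by
      intro ε hε
      obtain ⟨ψ, p, h1, -, h3, h4, h5⟩ := hnear (φ * φ) (fun U => by
        rw [map_mul]; exact mul_self_nonneg _) ε hε
      exact ⟨ψ, p, h1, fun r => h3 _ (cen_hz hz1 r.1.1 r.2) (tw_VT hz1 r.1.1 r.2), h4, h5⟩)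
  rw [Fintype.card_prod, Fintype.card_coe, ZMod.card] at h
  exact h

end

end Pool.Agent.W653.CF
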