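import Mathlib
import Pool.Agent.W504.YM.NearT
import Pool.Agent.W653.CF.Main

/-!
# Near ground states
-/

open MeasureTheory Matrix
open scoped Matrix.Norms.Frobenius ContDiff

namespace Pool.Agent.W653.CF

open Pool.Agent.H906R3.YM Pool.Agent.W58

set_option linter.unusedSectionVars false

noncomputable section

variable {N n : ℕ} {G : Type*} [Group G] [TopologicalSpace G] {L : LD G N n}
  [IsTopologicalGroup G] [CompactSpace G] [SecondCountableTopology G]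
  [MeasurableSpace G] [BorelSpace G] (μ : Measure G) [IsProbabilityMeasure μ]
  [μ.IsMulLeftInvariant] [μ.IsMulRightInvariant] [μ.IsOpenPosMeasure] {D l : ℕ} [NeZero l]

lemma curv_of_ric {K : ℝ}
    (hK : ∀ v : Fin n → ℝ, K * ∑ b, v b ^ 2 ≤ 1 / 4 * ∑ a, ∑ c, (∑ b, L.sc a c b * v b) ^ 2) :
    Pool.Agent.W504.YM.Curv L K := by
  intro v
  have := hK v
  linarith

theorem near_of {K : ℝ} (hK : 0 < K) (hc : Pool.Agent.W504.YM.Curv L K) {r : ℝ}
    (hr : Pool.Agent.W504.YM.Cn L r) (hD : 1 ≤ D) {g : ℝ} (hg : 0 < g) {Y0 : ℝ} (hY0 : 0 < Y0)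
    (hY : 2 * Y0 ^ 2 - K * Y0 + 16 * ((D : ℝ) - 1) / g ^ 4 < 0)
    {E0 : ℝ} (hE0 : 0 ≤ E0)
    (hE : ∀ f : Sm L (Ed D l), Inv f → E0 * L.I μ (f * f) ≤ Pool.Agent.W504.YM.en μ g f) :
    Near L μ D l g E0 Y0 := by
  intro W hW ε hε
  obtain ⟨ψ, p, h1, -, h3, h4, h5, h6⟩ :=
    Pool.Agent.W504.YM.near_ground (μ := μ) hK hc hr hD hg hY0 hY hE0 hE hW hε
  refine ⟨ψ, p, by rw [mul_comm]; exact h1, h3, fun c hc1 hc2 => ?_, fun x ξ => ?_, ?_⟩
  · refine ev_ext fun U => ?_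
    rw [ev_tw]
    refine h4 c hc1 (fun U => ?_) U
    rw [← ev_tw, hc2]
  · rw [Finset.sum_comm]
    exact h5 x ξ
  · refine h6.trans (le_of_eq ?_)
    congr 2
    unfold HH
    rw [sub_eq_neg_add]

end

end Pool.Agent.W653.CF
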