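import Mathlib
import Pool.Agent.H906R3.YM.Chain

/-!
# Ground state representation of the energy and disjoint cuts
-/

namespace Pool.Agent.W653.CF

open Pool.Agent.H906R3.YM

set_option linter.unusedSectionVars false

noncomputable section

variable {A : Type*} [CommRing A] [Algebra ℝ A] {P J : Type*} [Fintype J] (S : Fn A P J)

lemma energy_prod {g : ℝ} {V u v : A} : S.enr g V 0 (u * v) (u * v) =
    g ^ 2 / 2 * S.I (u * u * Gam S.D v v) + S.I (v * v * u * HH S.D g V u) := by
  unfold Fn.enr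
  have h1 : u * v * (HH S.D g V (u * v) - (0 : ℝ) • (u * v)) =
      v * v * u * HH S.D g V u - (g ^ 2 : ℝ) • (v * u * XX S.D v u) := by
    rw [zero_smul, sub_zero, mul_comm u v, HH_mul]
    simp only [Algebra.smul_def]; ring
  rw [h1, map_sub, map_smul, I_hX S.I S.I_D, smul_eq_mul, mul_comm (Gam S.D v v) (u * u)]
  ring

/-- The energy of `u v` is bounded below by the sum of the contributions of disjoint cuts. -/
theorem cuts_le' [DecidableEq J] {g κ : ℝ} {R : ℕ} {V u v : A} (C : ℕ → Finset J)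
    (hC : ∀ r r', r ≠ r' → Disjoint (C r) (C r'))
    (hP : ∀ r < R, κ * S.I (u * u * (v * v)) ≤
      S.I (u * u * ∑ j ∈ C r, S.D j v * S.D j v)) :
    g ^ 2 / 2 * κ * R * S.I (u * v * (u * v)) + S.I (v * v * u * HH S.D g V u) ≤
      S.enr g V 0 (u * v) (u * v) := by
  rw [energy_prod]
  have e0 : S.I (u * v * (u * v)) = S.I (u * u * (v * v)) := by congr 1; ring
  rw [e0]
  have h2 : κ * R * S.I (u * u * (v * v)) ≤ S.I (u * u * Gam S.D v v) := by
    have h3 : ∑ r ∈ Finset.range R, κ * S.I (u * u * (v * v)) ≤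
        ∑ r ∈ Finset.range R, S.I (u * u * ∑ j ∈ C r, S.D j v * S.D j v) :=
      Finset.sum_le_sum fun r hr => hP r (Finset.mem_range.1 hr)
    rw [Finset.sum_const, Finset.card_range, nsmul_eq_mul] at h3
    have h4 : ∑ r ∈ Finset.range R, S.I (u * u * ∑ j ∈ C r, S.D j v * S.D j v) ≤
        S.I (u * u * Gam S.D v v) := by
      rw [← map_sum, ← Finset.mul_sum]
      refine S.I_mono _ _ fun x => ?_
      have e1 : ∀ X, S.ev x (u * u * X) = S.ev x u * S.ev x u * S.ev x X := fun X => by
        rw [map_mul, map_mul]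
      rw [e1, e1]
      refine mul_le_mul_of_nonneg_left ?_ (mul_self_nonneg _)
      rw [map_sum]
      unfold Gam
      rw [map_sum]
      have h5 : ∑ r ∈ Finset.range R, S.ev x (∑ j ∈ C r, S.D j v * S.D j v) =
          ∑ j ∈ (Finset.range R).biUnion C, S.ev x (S.D j v * S.D j v) := by
        rw [Finset.sum_biUnion]
        · exact Finset.sum_congr rfl fun r _ => by rw [map_sum]
        · intro r _ r' _ hrr
          exact hC r r' hrr
      rw [h5]
      refine Finset.sum_le_sum_of_subset_of_nonneg (Finset.subset_univ _) fun j _ _ => ?_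
      rw [map_mul]; exact mul_self_nonneg _
    linarith
  have h6 : 0 ≤ g ^ 2 / 2 := by positivity
  have h7 := mul_le_mul_of_nonneg_left h2 h6
  linarith

theorem cuts_le [DecidableEq J] {g E0 κ : ℝ} {R : ℕ} {V u v : A} (C : ℕ → Finset J)
    (hC : ∀ r r', r ≠ r' → Disjoint (C r) (C r'))
    (hu : ∀ x, 0 ≤ S.ev x u) (hH : ∀ x, E0 * S.ev x u ≤ S.ev x (HH S.D g V u))
    (hP : ∀ r < R, κ * S.I (u * u * (v * v)) ≤
      S.I (u * u * ∑ j ∈ C r, S.D j v * S.D j v)) :
    (E0 + g ^ 2 / 2 * κ * R) * S.I (u * v * (u * v)) ≤ S.enr g V 0 (u * v) (u * v) := by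
  have h0 := cuts_le' S (g := g) (V := V) C hC hP
  have e0 : S.I (u * v * (u * v)) = S.I (u * u * (v * v)) := by congr 1; ring
  have h1 : E0 * S.I (u * u * (v * v)) ≤ S.I (v * v * u * HH S.D g V u) := by
    have e1 : E0 * S.I (u * u * (v * v)) = S.I (E0 • (u * u * (v * v))) := by
      rw [map_smul, smul_eq_mul]
    rw [e1]
    refine S.I_mono _ _ fun x => ?_
    rw [map_smul, smul_eq_mul]
    simp only [map_mul]
    have h2 := mul_le_mul_of_nonneg_left (hH x)
      (mul_nonneg (mul_self_nonneg (S.ev x v)) (hu x))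
    nlinarith [h2]
  rw [e0] at h0 ⊢
  linarith

end

end Pool.Agent.W653.CF
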